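import Mathlib

/-!
# Setwise versus total variation convergence of shifted processes

For a measurable space `E` the implication
setwise convergence of the shifted processes implies total variation convergence
holds for all `E`-valued processes if and only if the σ-algebra of `E` is trivial.

The counterexample lives on the two point space: code the orbit `γ + n β mod 1` of a rotation by
a uniformly distributed random angle `β` (a Sturmian word with random slope and intercept).
If the intercept `γ` has density `1 + cos (2 π γ)`, the shifted words converge setwise to the word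
with uniform intercept (Riemann-Lebesgue lemma), but a Sturmian word determines its slope and its
intercept, so the total variation distance does not change under the shift.
-/

open MeasureTheory Filter Topology Set

universe u v

namespace Pool.Agent.Results.MP_a1f67d_pr.SetwiseNotTV

/-- Setwise convergence (S): `P(θ_n X ∈ A) → P'(X' ∈ A)` for every `A` in the product
σ-algebra on `E^ℕ`, where `θ_n X = (X_{n+k})_{k ≥ 0}`. -/
def SetwiseConv {E : Type u} [MeasurableSpace E] {Ω Ω' : Type v} [MeasurableSpace Ω]
    [MeasurableSpace Ω'] (P : Measure Ω) (P' : Measure Ω') (X : ℕ → Ω → E) (X' : ℕ → Ω' → E) :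
    Prop :=
  ∀ A : Set (ℕ → E), MeasurableSet A →
    Tendsto (fun n : ℕ => P.real {ω | (fun k => X (n + k) ω) ∈ A}) atTop
      (𝓝 (P'.real {ω | (fun k => X' k ω) ∈ A}))

/-- Total variation convergence (TV): `sup_A |P(θ_n X ∈ A) - P'(X' ∈ A)| → 0`, the supremum
being over all `A` in the product σ-algebra on `E^ℕ`. -/
def TVConv {E : Type u} [MeasurableSpace E] {Ω Ω' : Type v} [MeasurableSpace Ω]
    [MeasurableSpace Ω'] (P : Measure Ω) (P' : Measure Ω') (X : ℕ → Ω → E) (X' : ℕ → Ω' → E) :
    Prop :=
  Tendsto (fun n : ℕ => ⨆ A : {A : Set (ℕ → E) // MeasurableSet A},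
    |P.real {ω | (fun k => X (n + k) ω) ∈ A.1} - P'.real {ω | (fun k => X' k ω) ∈ A.1}|)
    atTop (𝓝 0)

/-! ## Density of natural multiples of an irrational number modulo one -/

lemma exists_fract_gt {b : ℝ} (hb : Irrational b) (x δ : ℝ) (hδ : 0 < δ) (h1 : δ < 1) :
    ∃ k : ℕ, 1 - δ < Int.fract (x + k * b) := by
  have : Fact ((0:ℝ) < 1) := ⟨one_pos⟩
  have hd : DenseRange (fun n : ℤ => n • ((b : ℝ) : AddCircle (1:ℝ))) := by
    rw [AddCircle.denseRange_zsmul_coe_iff]
    simpa using hb
  rw [denseRange_zsmul_iff_nsmul] at hd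
  have hopen : IsOpen ((fun z : AddCircle (1:ℝ) => (x : AddCircle (1:ℝ)) + z) ⁻¹'
      ((fun y : ℝ => (y : AddCircle (1:ℝ))) '' Ioo (1 - δ) 1)) := by
    apply IsOpen.preimage (by fun_prop)
    exact QuotientAddGroup.isOpenMap_coe _ isOpen_Ioo
  obtain ⟨k, hk⟩ := hd.exists_mem_open hopen (by
    refine ⟨((1 - δ / 2 - x : ℝ) : AddCircle (1:ℝ)), ?_⟩
    refine ⟨1 - δ / 2, ⟨by linarith, by linarith⟩, ?_⟩
    simp only
    rw [← AddCircle.coe_add]
    congr 1
    ring)
  obtain ⟨y, hy, hyk⟩ := hk
  refine ⟨k, ?_⟩
  have h2 : ((y - (x + k * b) : ℝ) : AddCircle (1:ℝ)) = 0 := by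
    rw [AddCircle.coe_sub, AddCircle.coe_add]
    have : ((k * b : ℝ) : AddCircle (1:ℝ)) = k • ((b : ℝ) : AddCircle (1:ℝ)) := by
      rw [← AddCircle.coe_nsmul, nsmul_eq_mul]
    rw [this, sub_eq_zero]
    exact hyk
  rw [AddCircle.coe_eq_zero_iff] at h2
  obtain ⟨n, hn⟩ := h2
  have h3 : x + k * b = y - n := by
    simp at hn
    linarith
  rw [h3, Int.fract_sub_intCast, Int.fract_eq_self.2 ⟨by linarith [hy.1], hy.2⟩]
  exact hy.1

/-- A Sturmian word determines its slope and its intercept. -/
lemma floor_inj {b b' x x' : ℝ} (hb : Irrational b) (hx : x ∈ Ico (0:ℝ) 1)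
    (hx' : x' ∈ Ico (0:ℝ) 1)
    (h : ∀ k : ℕ, ⌊x + k * b⌋ = ⌊x' + k * b'⌋) : b = b' ∧ x = x' := by
  have hbb : b = b' := by
    by_contra hne
    have hpos : 0 < |b - b'| := abs_pos.2 (sub_ne_zero.2 hne)
    obtain ⟨k, hk⟩ := exists_nat_gt (2 / |b - b'|)
    have hk2 : 2 < k * |b - b'| := by
      rwa [div_lt_iff₀ hpos] at hk
    have h1 := Int.abs_sub_lt_one_of_floor_eq_floor (h k)
    have h2 : k * |b - b'| = |(x + k * b - (x' + k * b')) - (x - x')| := by
      rw [← abs_of_nonneg (Nat.cast_nonneg k : (0:ℝ) ≤ k), ← abs_mul]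
      congr 1
      rw [abs_of_nonneg (Nat.cast_nonneg k : (0:ℝ) ≤ k)]
      ring
    have h3 := abs_sub (x + k * b - (x' + k * b')) (x - x')
    have h4 : |x - x'| < 1 := by
      rw [abs_lt]
      constructor <;> linarith [hx.1, hx.2, hx'.1, hx'.2]
    linarith
  refine ⟨hbb, ?_⟩
  subst hbb
  have key : ∀ x x' : ℝ, x ∈ Ico (0:ℝ) 1 → x' ∈ Ico (0:ℝ) 1 →
      (∀ k : ℕ, ⌊x + k * b⌋ = ⌊x' + k * b⌋) → ¬ x < x' := by
    intro x x' hx hx' h hlt
    obtain ⟨k, hk⟩ := exists_fract_gt hb x (x' - x) (by linarith) (by linarith [hx.1, hx'.2])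
    have h1 := h k
    have h2 : x + k * b = ⌊x + k * b⌋ + Int.fract (x + k * b) := (Int.floor_add_fract _).symm
    have h3 : (⌊x + k * b⌋ : ℝ) + 1 ≤ x' + k * b := by linarith
    have h4 : ⌊x + k * b⌋ + 1 ≤ ⌊x' + k * b⌋ := by
      apply Int.le_floor.2
      push_cast
      exact h3
    omega
  rcases lt_trichotomy x x' with h1 | h1 | h1
  · exact absurd h1 (key x x' hx hx' h)
  · exact h1
  · exact absurd h1 (key x' x hx' hx (fun k => (h k).symm))

/-! ## The coding -/

/-- The Sturmian word with slope `p.1` and intercept `p.2`, with letters `e0`, `e1`. -/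
noncomputable def coding {E : Type u} (e0 e1 : E) (p : ℝ × ℝ) (k : ℕ) : E :=
  open Classical in
  if ⌊p.2 + ((k + 1 : ℕ) : ℝ) * p.1⌋ = ⌊p.2 + (k : ℝ) * p.1⌋ then e0 else e1

lemma coding_shift {E : Type u} (e0 e1 : E) (p : ℝ × ℝ) (n k : ℕ) :
    coding e0 e1 p (n + k) = coding e0 e1 (p.1, Int.fract (p.2 + n * p.1)) k := by
  have h : ∀ j : ℕ, ⌊p.2 + ((n + j : ℕ) : ℝ) * p.1⌋
      = ⌊Int.fract (p.2 + n * p.1) + (j : ℝ) * p.1⌋ + ⌊p.2 + n * p.1⌋ := by
    intro j
    rw [← Int.floor_add_intCast]
    congr 1
    rw [Int.fract]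
    push_cast
    ring
  unfold coding
  have h1 : n + k + 1 = n + (k + 1) := by ring
  rw [h1, h, h]
  simp

lemma floor_step {b : ℝ} (hb : b ∈ Ico (0:ℝ) 1) (x : ℝ) (k : ℕ) :
    ⌊x + ((k + 1 : ℕ) : ℝ) * b⌋ = ⌊x + (k : ℝ) * b⌋ ∨
    ⌊x + ((k + 1 : ℕ) : ℝ) * b⌋ = ⌊x + (k : ℝ) * b⌋ + 1 := by
  have h1 : ⌊x + (k : ℝ) * b⌋ ≤ ⌊x + ((k + 1 : ℕ) : ℝ) * b⌋ := by
    apply Int.floor_le_floor
    push_cast
    nlinarith [hb.1]
  have h2 : ⌊x + ((k + 1 : ℕ) : ℝ) * b⌋ < ⌊x + (k : ℝ) * b⌋ + 2 := by
    rw [Int.floor_lt]
    push_cast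
    have := Int.lt_floor_add_one (x + (k : ℝ) * b)
    nlinarith [hb.2]
  omega

lemma coding_inj {p q : ℝ × ℝ} (hp : p.1 ∈ Ico (0:ℝ) 1) (hq : q.1 ∈ Ico (0:ℝ) 1)
    (hpi : Irrational p.1) (hp2 : p.2 ∈ Ico (0:ℝ) 1) (hq2 : q.2 ∈ Ico (0:ℝ) 1)
    (h : coding false true p = coding false true q) : p = q := by
  have hk : ∀ k : ℕ, ⌊p.2 + k * p.1⌋ = ⌊q.2 + k * q.1⌋ := by
    intro k
    induction k with
    | zero =>
      simp only [Nat.cast_zero, zero_mul, add_zero]
      rw [Int.floor_eq_zero_iff.2 hp2, Int.floor_eq_zero_iff.2 hq2]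
    | succ k ih =>
      have hc := congrFun h k
      unfold coding at hc
      rcases floor_step hp p.2 k with h1 | h1 <;> rcases floor_step hq q.2 k with h2 | h2
      · rw [h1, h2, ih]
      · exfalso
        rw [if_pos h1, if_neg (by omega)] at hc
        exact absurd hc (by decide)
      · exfalso
        rw [if_neg (by omega), if_pos h2] at hc
        exact absurd hc (by decide)
      · rw [h1, h2, ih]
  obtain ⟨h1, h2⟩ := floor_inj hpi hp2 hq2 hk
  exact Prod.ext h1 h2

lemma measurable_coding {E : Type u} [MeasurableSpace E] (e0 e1 : E) (k : ℕ) :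
    Measurable (fun p : ℝ × ℝ => coding e0 e1 p k) := by
  unfold coding
  apply Measurable.ite
  · apply measurableSet_eq_fun
    · fun_prop
    · fun_prop
  · exact measurable_const
  · exact measurable_const

lemma measurable_coding' {E : Type u} [MeasurableSpace E] (e0 e1 : E) :
    Measurable (fun p : ℝ × ℝ => coding e0 e1 p) :=
  measurable_pi_iff.2 fun k => measurable_coding e0 e1 k

/-! ## The two laws of (slope, intercept) -/

lemma integral_periodic_shift (H : ℝ → ℝ) (hH : Function.Periodic H 1) (c : ℝ) :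
    ∫ g in Ico (0:ℝ) 1, H (g + c) = ∫ g in Ico (0:ℝ) 1, H g := by
  rw [integral_Ico_eq_integral_Ioc, integral_Ico_eq_integral_Ioc]
  rw [← intervalIntegral.integral_of_le zero_le_one, ← intervalIntegral.integral_of_le zero_le_one]
  rw [intervalIntegral.integral_comp_add_right (fun x => H x) c]
  have := hH.intervalIntegral_add_eq c 0
  rw [zero_add, add_comm 1 c, this, zero_add]

/-- The uniform law on the unit square. -/
noncomputable def μ0 : Measure (ℝ × ℝ) :=
  (volume.restrict (Ico (0:ℝ) 1)).prod (volume.restrict (Ico (0:ℝ) 1))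

instance : IsProbabilityMeasure (volume.restrict (Ico (0:ℝ) 1)) := ⟨by simp⟩

instance : IsProbabilityMeasure μ0 := by unfold μ0; infer_instance

/-- The density `1 + cos (2 π γ)`. -/
noncomputable def dens (p : ℝ × ℝ) : ℝ := 1 + Real.cos (2 * Real.pi * p.2)

lemma dens_nonneg (p : ℝ × ℝ) : 0 ≤ dens p := by
  unfold dens; linarith [Real.neg_one_le_cos (2 * Real.pi * p.2)]

lemma dens_le (p : ℝ × ℝ) : dens p ≤ 2 := by
  unfold dens; linarith [Real.cos_le_one (2 * Real.pi * p.2)]

lemma measurable_dens : Measurable dens := by unfold dens; fun_prop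

/-- The law of (slope, intercept) with density `1 + cos (2 π γ)`. -/
noncomputable def μ1 : Measure (ℝ × ℝ) := μ0.withDensity (fun p => ENNReal.ofReal (dens p))

lemma μ1_real {S : Set (ℝ × ℝ)} (hS : MeasurableSet S) :
    μ1.real S = ∫ p, dens p * S.indicator 1 p ∂μ0 := by
  have hint : Integrable (fun p => dens p * S.indicator (1 : ℝ × ℝ → ℝ) p) μ0 := by
    apply Integrable.of_bound (C := 2)
    · exact (measurable_dens.mul (measurable_one.indicator hS)).aestronglyMeasurable
    · filter_upwards with p
      rw [norm_mul, Real.norm_of_nonneg (dens_nonneg p)]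
      by_cases hp : p ∈ S
      · simp [hp, dens_le]
      · simp [hp]
  rw [measureReal_def, μ1, withDensity_apply _ hS,
    integral_eq_lintegral_of_nonneg_ae _ hint.aestronglyMeasurable]
  · congr 1
    rw [← lintegral_indicator hS]
    apply lintegral_congr
    intro p
    by_cases hp : p ∈ S <;> simp [hp]
  · filter_upwards with p
    have := dens_nonneg p
    by_cases hp : p ∈ S <;> simp [hp, this]

lemma μ0_real {S : Set (ℝ × ℝ)} (hS : MeasurableSet S) :
    μ0.real S = ∫ p, S.indicator 1 p ∂μ0 := by
  rw [integral_indicator_one hS]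

lemma integral_cos_period (c : ℝ) :
    ∫ g in Ico (0:ℝ) 1, Real.cos (2 * Real.pi * (g + c)) = 0 := by
  rw [integral_periodic_shift (fun g => Real.cos (2 * Real.pi * g))]
  · rw [integral_Ico_eq_integral_Ioc, ← intervalIntegral.integral_of_le zero_le_one]
    rw [intervalIntegral.integral_comp_mul_left (fun x => Real.cos x) (by positivity)]
    simp
  · intro x
    simp only
    rw [mul_add, mul_one, Real.cos_add_two_pi]

instance : IsProbabilityMeasure μ1 := by
  constructor
  have h := μ1_real (S := univ) MeasurableSet.univ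
  have h2 : μ1.real univ = 1 := by
    rw [h]
    simp only [indicator_univ, Pi.one_apply, mul_one]
    unfold μ0 dens
    rw [integral_prod]
    · simp only
      have : ∀ x : ℝ, ∫ g in Ico (0:ℝ) 1, (1 + Real.cos (2 * Real.pi * g)) = 1 := by
        intro _
        rw [integral_add (integrable_const _)]
        · have := integral_cos_period 0
          simp only [add_zero] at this
          rw [this]
          simp
        · apply Integrable.of_bound (C := 1)
          · exact Measurable.aestronglyMeasurable (by fun_prop)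
          · filter_upwards with x
            exact Real.abs_cos_le_one _
      rw [this 0]
      simp
    · apply Integrable.of_bound (C := 2)
      · exact Measurable.aestronglyMeasurable (by fun_prop)
      · filter_upwards with p
        have h1 := dens_nonneg p
        have h2 := dens_le p
        unfold dens at h1 h2
        rw [Real.norm_of_nonneg h1]
        exact h2
  rw [measureReal_def] at h2
  rw [← ENNReal.toReal_eq_one_iff]
  exact h2

/-- Change of variables for the shear `(b, g) ↦ (b, g + n b mod 1)`. -/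
lemma shear_integral (F : ℝ × ℝ → ℝ) (hF : Measurable F) (C : ℝ) (hC : ∀ p, ‖F p‖ ≤ C)
    (n : ℕ) (H : ℝ → ℝ → ℝ) (hH : Measurable (Function.uncurry H)) (hHb : ∀ b y, ‖H b y‖ ≤ 2)
    (hper : ∀ b, Function.Periodic (H b) 1) :
    ∫ p, H p.1 (p.2 + n * p.1) * F (p.1, Int.fract (p.2 + n * p.1)) ∂μ0
      = ∫ p, H p.1 p.2 * F p ∂μ0 := by
  have hfr : Measurable (fun p : ℝ × ℝ => (p.1, Int.fract (p.2 + n * p.1))) := by fun_prop
  have hs : Measurable (fun p : ℝ × ℝ => (p.1, (p.2 + n * p.1))) := by fun_prop
  unfold μ0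
  rw [integral_prod, integral_prod]
  · apply integral_congr_ae
    filter_upwards with b
    have h1 := integral_periodic_shift (fun y => H b y * F (b, Int.fract y)) (by
      intro x
      simp only
      rw [hper b x]
      congr 2
      simp) (n * b)
    rw [h1]
    apply setIntegral_congr_fun measurableSet_Ico
    intro y hy
    simp only
    rw [Int.fract_eq_self.2 ⟨hy.1, hy.2⟩]
  · apply Integrable.of_bound (C := 2 * C)
    · apply Measurable.aestronglyMeasurable
      exact hH.mul hF
    · filter_upwards with p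
      rw [norm_mul]
      exact mul_le_mul (hHb _ _) (hC _) (norm_nonneg _) (by norm_num)
  · apply Integrable.of_bound (C := 2 * C)
    · apply Measurable.aestronglyMeasurable
      exact (hH.comp hs).mul (hF.comp hfr)
    · filter_upwards with p
      rw [norm_mul]
      exact mul_le_mul (hHb _ _) (hC _) (norm_nonneg _) (by norm_num)

lemma tendsto_cos (F : ℝ × ℝ → ℝ) (hF : Measurable F) (C : ℝ) (hC : ∀ p, ‖F p‖ ≤ C) :
    Tendsto (fun n : ℕ => ∫ p, Real.cos (2 * Real.pi * (p.2 - n * p.1)) * F p ∂μ0)
      atTop (𝓝 0) := by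
  let f : ℝ → ℂ := (Ico (0:ℝ) 1).indicator
    (fun b => ∫ y in Ico (0:ℝ) 1, Complex.exp (2 * Real.pi * y * Complex.I) * F (b, y))
  have h1 := Real.tendsto_integral_exp_smul_cocompact f
  have h2 : Tendsto (fun n : ℕ => ((n:ℕ) : ℝ)) atTop (cocompact ℝ) :=
    tendsto_natCast_atTop_atTop.mono_right atTop_le_cocompact
  have h3 := (Complex.continuous_re.tendsto _).comp (h1.comp h2)
  simp only [Complex.zero_re] at h3
  refine h3.congr ?_
  intro n
  simp only [Function.comp]
  have e1 : ∫ v : ℝ, Real.fourierChar (-(v * n)) • f v =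
      ∫ p, Complex.exp (2 * Real.pi * (p.2 - n * p.1) * Complex.I) * F p ∂μ0 := by
    unfold μ0
    rw [integral_prod]
    · rw [← integral_indicator measurableSet_Ico]
      apply integral_congr_ae
      filter_upwards with v
      by_cases hv : v ∈ Ico (0:ℝ) 1
      · simp only [f, indicator_of_mem hv]
        rw [Circle.smul_def, smul_eq_mul, ← integral_const_mul]
        congr 1
        ext y
        rw [Real.fourierChar_apply, ← mul_assoc, ← Complex.exp_add]
        congr 2
        push_cast
        ring
      · simp [f, indicator_of_notMem hv]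
    · apply Integrable.of_bound (C := C)
      · exact Measurable.aestronglyMeasurable (by fun_prop)
      · filter_upwards with p
        rw [norm_mul]
        have : ‖Complex.exp (2 * Real.pi * (p.2 - n * p.1) * Complex.I)‖ = 1 := by
          have := Complex.norm_exp_ofReal_mul_I (2 * Real.pi * (p.2 - n * p.1))
          push_cast at this
          exact this
        rw [this, one_mul, Complex.norm_real]
        exact hC p
  rw [e1]
  have e2 := integral_re (𝕜 := ℂ) (μ := μ0)
    (f := fun p : ℝ × ℝ => Complex.exp (2 * Real.pi * (p.2 - n * p.1) * Complex.I) * F p) (by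
      apply Integrable.of_bound (C := C)
      · exact Measurable.aestronglyMeasurable (by fun_prop)
      · filter_upwards with p
        rw [norm_mul]
        have : ‖Complex.exp (2 * Real.pi * (p.2 - n * p.1) * Complex.I)‖ = 1 := by
          have := Complex.norm_exp_ofReal_mul_I (2 * Real.pi * (p.2 - n * p.1))
          push_cast at this
          exact this
        rw [this, one_mul, Complex.norm_real]
        exact hC p)
  simp only [RCLike.re_to_complex] at e2
  rw [← e2]
  apply integral_congr_ae
  filter_upwards with p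
  have := Complex.exp_ofReal_mul_I_re (2 * Real.pi * (p.2 - n * p.1))
  push_cast at this
  rw [Complex.re_mul_ofReal, this]

/-! ## Setwise convergence -/

lemma setwise {E : Type u} [MeasurableSpace E] (e0 e1 : E) (A : Set (ℕ → E))
    (hA : MeasurableSet A) :
    Tendsto (fun n : ℕ => μ1.real {p | (fun k => coding e0 e1 p (n + k)) ∈ A}) atTop
      (𝓝 (μ0.real {p | (fun k => coding e0 e1 p k) ∈ A})) := by
  set S : Set (ℝ × ℝ) := {p | (fun k => coding e0 e1 p k) ∈ A} with hSdef
  have hS : MeasurableSet S := (measurable_coding' e0 e1) hA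
  let F : ℝ × ℝ → ℝ := S.indicator 1
  have hF : Measurable F := measurable_one.indicator hS
  have hFb : ∀ p, ‖F p‖ ≤ 1 := by
    intro p
    by_cases hp : p ∈ S <;> simp [F, hp]
  have hmain : ∀ n : ℕ, μ1.real {p | (fun k => coding e0 e1 p (n + k)) ∈ A} =
      μ0.real S + ∫ p, Real.cos (2 * Real.pi * (p.2 - n * p.1)) * F p ∂μ0 := by
    intro n
    have hset : {p | (fun k => coding e0 e1 p (n + k)) ∈ A} =
        (fun p : ℝ × ℝ => (p.1, Int.fract (p.2 + n * p.1))) ⁻¹' S := by
      ext p
      simp only [mem_ofPred_eq, mem_preimage, hSdef]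
      have : (fun k => coding e0 e1 p (n + k)) =
          (fun k => coding e0 e1 (p.1, Int.fract (p.2 + n * p.1)) k) := by
        ext k
        exact coding_shift e0 e1 p n k
      rw [this]
    have hmeas : Measurable (fun p : ℝ × ℝ => (p.1, Int.fract (p.2 + n * p.1))) := by fun_prop
    rw [hset, μ1_real (hmeas hS)]
    have e1 := shear_integral F hF 1 hFb n
      (fun b y => 1 + Real.cos (2 * Real.pi * (y - n * b))) (by fun_prop) (by
        intro b y
        have h1 := Real.neg_one_le_cos (2 * Real.pi * (y - n * b))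
        have h2 := Real.cos_le_one (2 * Real.pi * (y - n * b))
        rw [Real.norm_eq_abs, abs_le]
        constructor <;> linarith) (by
        intro b y
        simp only
        have : 2 * Real.pi * (y + 1 - n * b) = 2 * Real.pi * (y - n * b) + 2 * Real.pi := by ring
        rw [this, Real.cos_add_two_pi])
    have e2 : ∫ p, dens p * ((fun p : ℝ × ℝ => (p.1, Int.fract (p.2 + n * p.1))) ⁻¹' S).indicator
        1 p ∂μ0 = ∫ p, (1 + Real.cos (2 * Real.pi * (p.2 + n * p.1 - n * p.1))) *
          F (p.1, Int.fract (p.2 + n * p.1)) ∂μ0 := by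
      apply integral_congr_ae
      filter_upwards with p
      unfold dens
      congr 1
      congr 2
      ring
    rw [e2, e1, μ0_real hS, ← integral_add]
    · apply integral_congr_ae
      filter_upwards with p
      simp only [F]
      ring
    · apply Integrable.of_bound (C := 1)
      · exact hF.aestronglyMeasurable
      · exact Filter.Eventually.of_forall hFb
    · apply Integrable.of_bound (C := 1)
      · exact Measurable.aestronglyMeasurable (by fun_prop)
      · filter_upwards with p
        rw [norm_mul]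
        calc _ ≤ 1 * 1 := mul_le_mul (Real.abs_cos_le_one _) (hFb p) (norm_nonneg _) zero_le_one
          _ = 1 := one_mul 1
  simp_rw [hmain]
  have := (tendsto_cos F hF 1 hFb).const_add (μ0.real S)
  rwa [add_zero] at this

/-! ## The total variation distance stays bounded away from zero -/

/-- The points with irrational slope in the unit square. -/
def D : Set (ℝ × ℝ) := {p | Irrational p.1 ∧ p.1 ∈ Ico (0:ℝ) 1 ∧ p.2 ∈ Ico (0:ℝ) 1}

lemma measurableSet_irrational : MeasurableSet {x : ℝ | Irrational x} := by
  have : {x : ℝ | Irrational x} = (range ((↑) : ℚ → ℝ))ᶜ := rfl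
  rw [this]
  exact (countable_range _).measurableSet.compl

lemma measurableSet_D : MeasurableSet D := by
  have h1 : MeasurableSet {p : ℝ × ℝ | Irrational p.1} :=
    measurable_fst measurableSet_irrational
  have h2 : MeasurableSet {p : ℝ × ℝ | p.1 ∈ Ico (0:ℝ) 1} :=
    measurable_fst measurableSet_Ico
  have h3 : MeasurableSet {p : ℝ × ℝ | p.2 ∈ Ico (0:ℝ) 1} :=
    measurable_snd measurableSet_Ico
  exact h1.inter (h2.inter h3)

lemma ae_D : ∀ᵐ p ∂μ0, p ∈ D := by
  have hirr : ∀ᵐ x ∂(volume : Measure ℝ), Irrational x := by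
    have : (range ((↑) : ℚ → ℝ)).Countable := countable_range _
    exact this.ae_notMem _
  have h1 : ∀ᵐ x ∂(volume.restrict (Ico (0:ℝ) 1)), Irrational x ∧ x ∈ Ico (0:ℝ) 1 := by
    filter_upwards [ae_restrict_of_ae hirr, ae_restrict_mem measurableSet_Ico] with x hx hx'
    exact ⟨hx, hx'⟩
  have h2 : ∀ᵐ x ∂(volume.restrict (Ico (0:ℝ) 1)), x ∈ Ico (0:ℝ) 1 :=
    ae_restrict_mem measurableSet_Ico
  unfold μ0
  filter_upwards [Measure.quasiMeasurePreserving_fst.ae h1,
    Measure.quasiMeasurePreserving_snd.ae h2] with p hp hp'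
  exact ⟨hp.1, hp.2, hp'⟩

/-- The set of intercepts used to tell the two laws apart. -/
def C0 : Set (ℝ × ℝ) := {p | 0 < Real.cos (2 * Real.pi * p.2)}

lemma measurableSet_C0 : MeasurableSet C0 :=
  measurableSet_lt measurable_const (by fun_prop)

/-- The points of `D` whose intercept, pulled back by `n` steps, has positive cosine. -/
def Sn (n : ℕ) : Set (ℝ × ℝ) := D ∩ {p | 0 < Real.cos (2 * Real.pi * (p.2 - n * p.1))}

lemma measurableSet_Sn (n : ℕ) : MeasurableSet (Sn n) :=
  measurableSet_D.inter (measurableSet_lt measurable_const (by fun_prop))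

/-- The set of words used to tell the two laws apart after `n` steps. -/
def An (n : ℕ) : Set (ℕ → Bool) := (coding false true) '' (Sn n)

lemma coding_injOn : InjOn (coding false true) D := by
  intro p hp q hq h
  exact coding_inj hp.2.1 hq.2.1 hp.1 hp.2.2 hq.2.2 h

lemma measurableSet_An (n : ℕ) : MeasurableSet (An n) :=
  (measurableSet_Sn n).image_of_measurable_injOn (measurable_coding' false true)
    (coding_injOn.mono inter_subset_left)

lemma mem_An_iff (n : ℕ) {p : ℝ × ℝ} (hp : p ∈ D) :
    coding false true p ∈ An n ↔ 0 < Real.cos (2 * Real.pi * (p.2 - n * p.1)) := by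
  constructor
  · rintro ⟨q, hq, hqp⟩
    have : q = p := coding_injOn hq.1 hp hqp
    subst this
    exact hq.2
  · intro h
    exact ⟨p, ⟨hp, h⟩, rfl⟩

lemma shift_mem_An_iff (n : ℕ) {p : ℝ × ℝ} (hp : p ∈ D) :
    (fun k => coding false true p (n + k)) ∈ An n ↔ p ∈ C0 := by
  have h1 : (fun k => coding false true p (n + k)) =
      coding false true (p.1, Int.fract (p.2 + n * p.1)) := by
    ext k
    exact coding_shift false true p n k
  have h2 : (p.1, Int.fract (p.2 + n * p.1)) ∈ D :=
    ⟨hp.1, hp.2.1, Int.fract_nonneg _, Int.fract_lt_one _⟩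
  rw [h1, mem_An_iff n h2]
  have h3 : 2 * Real.pi * (Int.fract (p.2 + n * p.1) - n * p.1) =
      2 * Real.pi * p.2 - ⌊p.2 + n * p.1⌋ * (2 * Real.pi) := by
    rw [Int.fract]
    ring
  simp only [h3, Real.cos_sub_int_mul_two_pi]
  rfl

lemma ac : μ1 ≪ μ0 := withDensity_absolutelyContinuous _ _

lemma μ1_shift (n : ℕ) :
    μ1.real {p | (fun k => coding false true p (n + k)) ∈ An n} = μ1.real C0 := by
  apply measureReal_congr
  filter_upwards [ac.ae_le ae_D] with p hp
  exact propext (shift_mem_An_iff n hp)

lemma μ0_An (n : ℕ) :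
    μ0.real {p | (fun k => coding false true p k) ∈ An n} = μ0.real C0 := by
  have h1 : μ0.real {p | (fun k => coding false true p k) ∈ An n} =
      μ0.real {p | 0 < Real.cos (2 * Real.pi * (p.2 - n * p.1))} := by
    apply measureReal_congr
    filter_upwards [ae_D] with p hp
    exact propext (mem_An_iff n hp)
  have hm : MeasurableSet {p : ℝ × ℝ | 0 < Real.cos (2 * Real.pi * (p.2 - n * p.1))} :=
    measurableSet_lt measurable_const (by fun_prop)
  rw [h1, μ0_real hm, μ0_real measurableSet_C0]
  have hH : Measurable (Function.uncurry (fun b y : ℝ =>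
      ({y | 0 < Real.cos (2 * Real.pi * (y - n * b))} : Set ℝ).indicator (1 : ℝ → ℝ) y)) := by
    have : (Function.uncurry (fun b y : ℝ =>
      ({y | 0 < Real.cos (2 * Real.pi * (y - n * b))} : Set ℝ).indicator (1 : ℝ → ℝ) y)) =
      ({p : ℝ × ℝ | 0 < Real.cos (2 * Real.pi * (p.2 - n * p.1))}).indicator 1 := by
      ext p
      rfl
    rw [this]
    exact measurable_one.indicator hm
  have h2 := shear_integral (fun _ => 1) measurable_const 1 (by simp) n
    (fun b y => ({y | 0 < Real.cos (2 * Real.pi * (y - n * b))} : Set ℝ).indicator 1 y)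
    hH (by
      intro b y
      by_cases h : y ∈ ({y | 0 < Real.cos (2 * Real.pi * (y - n * b))} : Set ℝ)
      · rw [indicator_of_mem h]; norm_num
      · rw [indicator_of_notMem h]; norm_num) (by
      intro b y
      have h3 : (y + 1 ∈ ({y | 0 < Real.cos (2 * Real.pi * (y - n * b))} : Set ℝ)) ↔
          (y ∈ ({y | 0 < Real.cos (2 * Real.pi * (y - n * b))} : Set ℝ)) := by
        have : 2 * Real.pi * (y + 1 - n * b) = 2 * Real.pi * (y - n * b) + 2 * Real.pi := by ring
        simp only [mem_ofPred_eq, this, Real.cos_add_two_pi]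
      by_cases h : y ∈ ({y | 0 < Real.cos (2 * Real.pi * (y - n * b))} : Set ℝ)
      · simp only [indicator_of_mem h, indicator_of_mem (h3.2 h), Pi.one_apply]
      · simp only [indicator_of_notMem h, indicator_of_notMem (fun h' => h (h3.1 h'))])
  simp only [mul_one] at h2
  have h4 : ∀ p : ℝ × ℝ, ({y | 0 < Real.cos (2 * Real.pi * (y - n * p.1))} : Set ℝ).indicator
      (1 : ℝ → ℝ) (p.2 + n * p.1) = C0.indicator 1 p := by
    intro p
    have h5 : (p.2 + n * p.1 ∈ ({y | 0 < Real.cos (2 * Real.pi * (y - n * p.1))} : Set ℝ)) ↔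
        p ∈ C0 := by
      have : 2 * Real.pi * (p.2 + n * p.1 - n * p.1) = 2 * Real.pi * p.2 := by ring
      simp only [mem_ofPred_eq, this, C0]
    by_cases h : p ∈ C0
    · simp only [indicator_of_mem h, indicator_of_mem (h5.2 h), Pi.one_apply]
    · simp only [indicator_of_notMem h, indicator_of_notMem (fun h' => h (h5.1 h'))]
  simp only [h4] at h2
  rw [h2]
  rfl

lemma gap_pos : 0 < μ1.real C0 - μ0.real C0 := by
  rw [μ1_real measurableSet_C0, μ0_real measurableSet_C0]
  have hi : Integrable (fun p => C0.indicator (1 : ℝ × ℝ → ℝ) p) μ0 := by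
    apply Integrable.of_bound (C := 1)
    · exact (measurable_one.indicator measurableSet_C0).aestronglyMeasurable
    · filter_upwards with p
      by_cases hp : p ∈ C0 <;> simp [hp]
  have hi2 : Integrable (fun p => dens p * C0.indicator (1 : ℝ × ℝ → ℝ) p) μ0 := by
    apply Integrable.of_bound (C := 2)
    · exact (measurable_dens.mul
        (measurable_one.indicator measurableSet_C0)).aestronglyMeasurable
    · filter_upwards with p
      rw [norm_mul, Real.norm_of_nonneg (dens_nonneg p)]
      by_cases hp : p ∈ C0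
      · simp [hp, dens_le]
      · simp [hp]
  rw [← integral_sub hi2 hi]
  rw [integral_pos_iff_support_of_nonneg_ae]
  · have hsub : Ico (0:ℝ) (1/4) ×ˢ Ico (0:ℝ) (1/4) ⊆ Function.support
        (fun p => dens p * C0.indicator (1 : ℝ × ℝ → ℝ) p - C0.indicator 1 p) := by
      rintro p ⟨-, hp⟩
      have hcos : 0 < Real.cos (2 * Real.pi * p.2) := by
        apply Real.cos_pos_of_mem_Ioo
        constructor
        · nlinarith [Real.pi_pos, hp.1]
        · nlinarith [Real.pi_pos, hp.2]
      have hpC : p ∈ C0 := hcos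
      simp only [Function.mem_support, indicator_of_mem hpC, Pi.one_apply, dens]
      intro h
      linarith
    refine lt_of_lt_of_le ?_ (measure_mono hsub)
    unfold μ0
    rw [Measure.prod_prod, Measure.restrict_apply measurableSet_Ico]
    have : Ico (0:ℝ) (1/4) ∩ Ico (0:ℝ) 1 = Ico (0:ℝ) (1/4) := by
      ext x
      simp only [mem_inter_iff, mem_Ico]
      constructor
      · rintro ⟨h, -⟩; exact h
      · rintro ⟨h1, h2⟩; exact ⟨⟨h1, h2⟩, h1, by linarith⟩
    rw [this]
    simp
  · filter_upwards with p
    by_cases hp : p ∈ C0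
    · have : 0 < Real.cos (2 * Real.pi * p.2) := hp
      simp only [indicator_of_mem hp, Pi.one_apply, dens, Pi.zero_apply]
      linarith
    · simp [hp]
  · exact hi2.sub hi

/-! ## The main theorem -/

lemma trivial_pi {E : Type u} [MeasurableSpace E]
    (h : ∀ A : Set E, MeasurableSet A → A = ∅ ∨ A = univ) (A : Set (ℕ → E))
    (hA : MeasurableSet A) : A = ∅ ∨ A = univ := by
  have h1 : (inferInstance : MeasurableSpace E) = ⊥ := by
    ext B
    rw [MeasurableSpace.measurableSet_bot_iff]
    constructor
    · exact h B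
    · rintro (rfl | rfl)
      · exact MeasurableSet.empty
      · exact MeasurableSet.univ
  have h2 : (MeasurableSpace.pi : MeasurableSpace (ℕ → E)) = ⊥ := by
    unfold MeasurableSpace.pi
    simp only [iSup_eq_bot]
    intro i
    have : (inferInstance : MeasurableSpace E).comap (fun b : ℕ → E => b i) = ⊥ := by
      rw [h1, MeasurableSpace.comap_bot]
    exact this
  have hA' : MeasurableSet[MeasurableSpace.pi] A := hA
  rw [h2, MeasurableSpace.measurableSet_bot_iff] at hA'
  exact hA'

/-- **Theorem.** Let `E` be a measurable space. Setwise convergence (S) implies total variation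
convergence (TV) for all pairs `X`, `X'` of `E`-valued processes if and only if the σ-algebra
of `E` is trivial. In particular (S) does not imply (TV), not even for `{0,1}`-valued
processes. -/
theorem result (E : Type u) [MeasurableSpace E] :
    (∀ (Ω Ω' : Type v) [MeasurableSpace Ω] [MeasurableSpace Ω'] (P : Measure Ω)
      (P' : Measure Ω') [IsProbabilityMeasure P] [IsProbabilityMeasure P']
      (X : ℕ → Ω → E) (X' : ℕ → Ω' → E), (∀ k, Measurable (X k)) → (∀ k, Measurable (X' k)) →
      SetwiseConv P P' X X' → TVConv P P' X X') ↔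
    (∀ A : Set E, MeasurableSet A → A = ∅ ∨ A = univ) := by
  constructor
  · intro h A1 hA1
    by_contra hcon
    push Not at hcon
    obtain ⟨hne, hnu⟩ := hcon
    obtain ⟨e1, he1⟩ := hne
    obtain ⟨e0, he0⟩ := (ne_univ_iff_exists_notMem A1).1 hnu
    let up : ℝ × ℝ → ULift.{v} (ℝ × ℝ) := ULift.up
    have hup : Measurable up := measurable_up
    have hP : IsProbabilityMeasure (μ1.map up) :=
      Measure.isProbabilityMeasure_map hup.aemeasurable
    have hP' : IsProbabilityMeasure (μ0.map up) :=
      Measure.isProbabilityMeasure_map hup.aemeasurable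
    let X : ℕ → ULift.{v} (ℝ × ℝ) → E := fun k ω => coding e0 e1 ω.down k
    have hX : ∀ k, Measurable (X k) := fun k =>
      (measurable_coding e0 e1 k).comp measurable_down
    have hXpi : ∀ n : ℕ, Measurable (fun ω k => X (n + k) ω) := fun n =>
      measurable_pi_iff.2 fun k => hX (n + k)
    have hXpi' : Measurable (fun ω k => X k ω) :=
      measurable_pi_iff.2 fun k => hX k
    have hmap : ∀ (μ : Measure (ℝ × ℝ)) (n : ℕ) (A : Set (ℕ → E)), MeasurableSet A →
        (μ.map up).real {ω | (fun k => X (n + k) ω) ∈ A} =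
          μ.real {p | (fun k => coding e0 e1 p (n + k)) ∈ A} := by
      intro μ n A hA
      have hs : MeasurableSet {ω | (fun k => X (n + k) ω) ∈ A} := hXpi n hA
      rw [map_measureReal_apply hup hs]
      rfl
    have hmap' : ∀ (μ : Measure (ℝ × ℝ)) (A : Set (ℕ → E)), MeasurableSet A →
        (μ.map up).real {ω | (fun k => X k ω) ∈ A} =
          μ.real {p | (fun k => coding e0 e1 p k) ∈ A} := by
      intro μ A hA
      have hs : MeasurableSet {ω | (fun k => X k ω) ∈ A} := hXpi' hA
      rw [map_measureReal_apply hup hs]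
      rfl
    have hS : SetwiseConv (μ1.map up) (μ0.map up) X X := by
      intro A hA
      rw [hmap' μ0 A hA]
      simp_rw [hmap μ1 _ A hA]
      exact setwise e0 e1 A hA
    have hTV := h _ _ (μ1.map up) (μ0.map up) X X hX hX hS
    have hge : ∀ n : ℕ, μ1.real C0 - μ0.real C0 ≤ ⨆ A : {A : Set (ℕ → E) // MeasurableSet A},
        |(μ1.map up).real {ω | (fun k => X (n + k) ω) ∈ A.1} -
          (μ0.map up).real {ω | (fun k => X k ω) ∈ A.1}| := by
      intro n
      classical
      let dec : (ℕ → E) → (ℕ → Bool) := fun ω k => decide (ω k ∈ A1)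
      have hdec : Measurable dec := by
        apply measurable_pi_iff.2
        intro k
        have h1 : Measurable (fun x : E => decide (x ∈ A1)) := by
          apply measurable_to_bool
          have : (fun x : E => decide (x ∈ A1)) ⁻¹' {true} = A1 := by
            ext x; simp
          rw [this]
          exact hA1
        exact h1.comp (measurable_pi_apply k)
      have hA : MeasurableSet (dec ⁻¹' (An n)) := hdec (measurableSet_An n)
      have hcod : ∀ p k, decide (coding e0 e1 p k ∈ A1) = coding false true p k := by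
        intro p k
        unfold coding
        split_ifs <;> simp [he0, he1]
      have hbdd : BddAbove (range (fun A : {A : Set (ℕ → E) // MeasurableSet A} =>
          |(μ1.map up).real {ω | (fun k => X (n + k) ω) ∈ A.1} -
          (μ0.map up).real {ω | (fun k => X k ω) ∈ A.1}|)) := by
        refine ⟨1, ?_⟩
        rintro _ ⟨A, rfl⟩
        simp only
        rw [abs_le]
        have h1 := measureReal_nonneg (μ := μ1.map up) (s := {ω | (fun k => X (n + k) ω) ∈ A.1})
        have h2 := measureReal_nonneg (μ := μ0.map up) (s := {ω | (fun k => X k ω) ∈ A.1})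
        have h3 := measureReal_le_one (μ := μ1.map up) (s := {ω | (fun k => X (n + k) ω) ∈ A.1})
        have h4 := measureReal_le_one (μ := μ0.map up) (s := {ω | (fun k => X k ω) ∈ A.1})
        constructor <;> linarith
      refine le_trans ?_ (le_ciSup hbdd ⟨dec ⁻¹' (An n), hA⟩)
      simp only
      rw [hmap μ1 n _ hA, hmap' μ0 _ hA]
      have h1 : {p | (fun k => coding e0 e1 p (n + k)) ∈ dec ⁻¹' (An n)} =
          {p | (fun k => coding false true p (n + k)) ∈ An n} := by
        ext p
        simp only [mem_ofPred_eq, mem_preimage, dec, hcod]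
      have h2 : {p | (fun k => coding e0 e1 p k) ∈ dec ⁻¹' (An n)} =
          {p | (fun k => coding false true p k) ∈ An n} := by
        ext p
        simp only [mem_ofPred_eq, mem_preimage, dec, hcod]
      rw [h1, h2, μ1_shift, μ0_An]
      exact le_abs_self _
    have := le_of_tendsto_of_tendsto' tendsto_const_nhds hTV hge
    exact absurd this (not_le.2 gap_pos)
  · intro h Ω Ω' _ _ P P' _ _ X X' hX hX' _
    have h0 : ∀ n : ℕ, (⨆ A : {A : Set (ℕ → E) // MeasurableSet A},
        |P.real {ω | (fun k => X (n + k) ω) ∈ A.1} -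
          P'.real {ω | (fun k => X' k ω) ∈ A.1}|) = 0 := by
      intro n
      have : ∀ A : {A : Set (ℕ → E) // MeasurableSet A},
          |P.real {ω | (fun k => X (n + k) ω) ∈ A.1} -
          P'.real {ω | (fun k => X' k ω) ∈ A.1}| = 0 := by
        rintro ⟨A, hA⟩
        rcases trivial_pi h A hA with rfl | rfl
        · simp
        · simp
      rw [iSup_congr this]
      exact Real.iSup_const_zero
    unfold TVConv
    simp_rw [h0]
    exact tendsto_const_nhds

end Pool.Agent.Results.MP_a1f67d_pr.SetwiseNotTV
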